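import Pool.Agent.H20.RU.Fin

/-!
The new basis of `k(x)`, and the basis over the closure of `k(x_n)`.
-/

set_option linter.style.haveILetI false

namespace RS

open Polynomial IntermediateField

variable {k K : Type*} [Field k] [Field K] [Algebra k K] {n : ℕ}

/-- the last index -/
def lst (hn : 0 < n) : Fin n := ⟨n - 1, by omega⟩

/-- the new basis: `x_j' = 1 / (x_j - x_n ^ (D ^ (n - j)))` for `j < n`, `x_n' = x_n` -/
def xk (hn : 0 < n) (x : Fin n → K) (D : ℕ) : Fin n → K := fun j =>
  if j = lst hn then x j else (x j - x (lst hn) ^ (D ^ (n - 1 - (j : ℕ))))⁻¹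

end RS
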