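import Pool.Agent.H20.KG.Bas

/-!
The new basis `xk` of `k(x)` generates the same field.
-/

namespace RS

open Polynomial IntermediateField

variable {k K : Type*} [Field k] [Field K] [Algebra k K] {n : ℕ}

theorem adjoin_xk' (hn : 0 < n) {x : Fin n → K} (D : ℕ) :
    adjoin k (Set.range (xk hn x D)) = adjoin k (Set.range x) := by
  apply le_antisymm
  · rw [adjoin_le_iff]
    rintro _ ⟨j, rfl⟩
    have hm : ∀ i, x i ∈ adjoin k (Set.range x) := fun i => subset_adjoin _ _ ⟨i, rfl⟩
    unfold xk
    split_ifs with h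
    · exact hm j
    · exact inv_mem (sub_mem (hm j) (pow_mem (hm _) _))
  · rw [adjoin_le_iff]
    rintro _ ⟨j, rfl⟩
    have hm : ∀ i, xk hn x D i ∈ adjoin k (Set.range (xk hn x D)) :=
      fun i => subset_adjoin _ _ ⟨i, rfl⟩
    have hl : xk hn x D (lst hn) = x (lst hn) := by
      unfold xk
      rw [if_pos rfl]
    by_cases h : j = lst hn
    · rw [h, ← hl]
      exact hm _
    · have hj : x j = (xk hn x D j)⁻¹ + (xk hn x D (lst hn)) ^ (D ^ (n - 1 - (j : ℕ))) := by
        rw [hl]
        unfold xk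
        rw [if_neg h, inv_inv, sub_add_cancel]
      rw [hj]
      exact add_mem (inv_mem (hm j)) (pow_mem (hm _) _)

end RS
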