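import Pool.Agent.H20.KG.Bas

/-!
A family of the same size with the same field is a transcendence basis.
-/

set_option linter.style.haveILetI false

namespace RS

open Polynomial IntermediateField

open scoped IntermediateField.algebraAdjoinAdjoin

variable {k K : Type*} [Field k] [Field K] [Algebra k K] {n : ℕ}

/-- a family of the same size with the same field is a transcendence basis -/
theorem basis_of_adjoin_eq' {x x' : Fin n → K} (hx : IsTranscendenceBasis k x)
    (h : adjoin k (Set.range x') = adjoin k (Set.range x)) : IsTranscendenceBasis k x' := by
  have h1 : Algebra.IsAlgebraic (adjoin k (Set.range x)) K := hx.isAlgebraic_field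
  have h2 : Algebra.IsAlgebraic (adjoin k (Set.range x')) K := by
    rw [h]
    exact h1
  have h3 : Algebra.IsAlgebraic (Algebra.adjoin k (Set.range x')) K :=
    (IsFractionRing.comap_isAlgebraic_iff (A := Algebra.adjoin k (Set.range x'))
      (K := adjoin k (Set.range x')) (C := K)).2 h2
  refine Algebra.IsAlgebraic.isTranscendenceBasis_of_lift_le_trdeg_of_finite k x' ?_
  exact hx.lift_cardinalMk_eq_trdeg.le

end RS
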