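import Pool.Agent.H20.KG.Bas

/-!
The first `n - 1` elements of a transcendence basis are a transcendence basis over the algebraic
closure of `k(x_n)`.
-/

set_option linter.style.haveILetI false

namespace RS

open Polynomial IntermediateField

variable {k K : Type*} [Field k] [Field K] [Algebra k K] {n : ℕ}

open IntermediateField.algebraAdjoinAdjoin in
/-- independence over the algebraic closure of the other elements -/
theorem indep_ac_of_sum {ι κ : Type*} (x' : κ → K) (y : ι → K)
    (h1 : AlgebraicIndependent k (Sum.elim y x')) :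
    AlgebraicIndependent (ALG.ac (adjoin k (Set.range x'))) y := by
  classical
  have h2 : AlgebraicIndependent (Algebra.adjoin k (Set.range x')) y :=
    (AlgebraicIndependent.sumElim_iff.1 h1).2
  have h3 : AlgebraicIndependent (adjoin k (Set.range x')) y := by
    haveI : Algebra.IsAlgebraic (Algebra.adjoin k (Set.range x')) (adjoin k (Set.range x')) :=
      IsLocalization.isAlgebraic _ (nonZeroDivisors _)
    exact h2.extendScalars _
  exact AlgebraicIndependent.algebraicClosure h3

/-- independent elements with an algebraic complement are a basis -/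
theorem basis_of_sum (E : IntermediateField k K) {ι κ : Type*} (x' : κ → K) (y : ι → K)
    (hE : ∀ i, x' i ∈ E) (h1 : AlgebraicIndependent E y)
    (halg : ∀ z : K, IsAlgebraic (Algebra.adjoin k (Set.range y ∪ Set.range x')) z) :
    IsTranscendenceBasis E y := by
  classical
  refine (h1.isTranscendenceBasis_iff_isAlgebraic).2 ⟨fun z => ?_⟩
  have hle : Algebra.adjoin k (Set.range y ∪ Set.range x') ≤
      (Algebra.adjoin E (Set.range y)).restrictScalars k := by
    rw [Algebra.adjoin_le_iff]
    rintro w (hw | ⟨i, rfl⟩)
    · exact Algebra.subset_adjoin (R := E) hw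
    · exact Subalgebra.algebraMap_mem (Algebra.adjoin E (Set.range y)) (⟨x' i, hE i⟩ : E)
  exact IsAlgebraic.tower_top_of_subalgebra_le
    (A := Algebra.adjoin k (Set.range y ∪ Set.range x'))
    (B := (Algebra.adjoin E (Set.range y)).restrictScalars k) hle (halg z)

/-- the basis over the algebraic closure of `k(x_n)` -/
theorem basis_lst' [IsAlgClosed K] (hn : 0 < n) {x : Fin n → K} (hx : IsTranscendenceBasis k x) :
    IsTranscendenceBasis (ALG.ac k⟮x (lst hn)⟯)
      (fun j : Fin (n - 1) => x (Fin.castLE (Nat.sub_le n 1) j)) := by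
  classical
  have hr : Set.range (fun _ : Unit => x (lst hn)) = {x (lst hn)} := Set.range_const
  have h1 : Sum.elim (fun j : Fin (n - 1) => x (Fin.castLE (Nat.sub_le n 1) j))
      (fun _ : Unit => x (lst hn)) =
      x ∘ Sum.elim (Fin.castLE (Nat.sub_le n 1)) (fun _ : Unit => lst hn) := by
    ext (j | j) <;> rfl
  have h3 : AlgebraicIndependent k (Sum.elim
      (fun j : Fin (n - 1) => x (Fin.castLE (Nat.sub_le n 1) j))
      (fun _ : Unit => x (lst hn))) := by
    rw [h1]
    refine hx.1.comp _ ?_
    rintro (i | i) (j | j) hij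
    · exact congrArg Sum.inl (Fin.castLE_injective (Nat.sub_le n 1) hij)
    · have h2 := congrArg Fin.val hij
      simp only [Sum.elim_inl, Sum.elim_inr, lst, Fin.val_castLE] at h2
      have := i.2
      omega
    · have h2 := congrArg Fin.val hij
      simp only [Sum.elim_inl, Sum.elim_inr, lst, Fin.val_castLE] at h2
      have := j.2
      omega
    · rfl
  have h4 := indep_ac_of_sum _ _ h3
  rw [hr] at h4
  refine basis_of_sum _ (fun _ : Unit => x (lst hn)) _
    (fun _ => ALG.le_ac _ (mem_adjoin_simple_self k _)) h4 fun z => ?_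
  have h2 : Set.range (fun j : Fin (n - 1) => x (Fin.castLE (Nat.sub_le n 1) j)) ∪
      Set.range (fun _ : Unit => x (lst hn)) = Set.range x := by
    apply Set.Subset.antisymm
    · rintro _ (⟨j, rfl⟩ | ⟨j, rfl⟩)
      · exact ⟨_, rfl⟩
      · exact ⟨_, rfl⟩
    · rintro _ ⟨j, rfl⟩
      rcases Nat.lt_or_ge (j : ℕ) (n - 1) with h | h
      · exact Or.inl ⟨⟨j, h⟩, rfl⟩
      · refine Or.inr ⟨(), ?_⟩
        have h5 : lst hn = j := by
          ext
          have := j.2
          simp only [lst]
          omega
        simp only [h5]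
  rw [h2]
  exact hx.isAlgebraic.isAlgebraic z

end RS
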