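import Pool.Agent.H20.KG.Pri

/-!
All algebraic functions of a rational function of degree at most `δ` are fixed by the `δ`-inert
automorphisms: all nonzero elements of `k(τ)`, hence all nonzero elements algebraic over `k(τ)`,
are units of a `δ`-generic valuation ring.
-/

set_option linter.style.haveILetI false

namespace RS

open Polynomial IntermediateField

variable {k K : Type*} [Field k] [Field K] [Algebra k K] {n : ℕ}

/-- `τ - c` is zero or a unit -/
theorem br_sub {x : Fin n → K} {δ : ℕ} {B : ValuationSubring K} (hB : Gnr k x δ B)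
    {P Q : MvPolynomial (Fin n) k} (hP : P.totalDegree ≤ δ) (hQ : Q.totalDegree ≤ δ) (c : k) :
    MvPolynomial.aeval x P / MvPolynomial.aeval x Q - algebraMap k K c = 0 ∨
      B.valuation (MvPolynomial.aeval x P / MvPolynomial.aeval x Q - algebraMap k K c) = 1 := by
  by_cases hQ0 : MvPolynomial.aeval x Q = 0
  · rw [hQ0, div_zero, zero_sub]
    by_cases hc : c = 0
    · left
      rw [hc, map_zero, neg_zero]
    · right
      have h1 := hB (MvPolynomial.C c) (by rwa [Ne, MvPolynomial.C_eq_zero]) (by
        rw [MvPolynomial.totalDegree_C]; exact Nat.zero_le _)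
      rw [MvPolynomial.aeval_C] at h1
      rw [Valuation.map_neg, h1]
  · have hQ1 : Q ≠ 0 := by
      rintro rfl
      exact hQ0 (map_zero _)
    have hv := hB Q hQ1 hQ
    have h2 : MvPolynomial.aeval x P / MvPolynomial.aeval x Q - algebraMap k K c =
        MvPolynomial.aeval x (P - MvPolynomial.C c * Q) / MvPolynomial.aeval x Q := by
      rw [map_sub, map_mul, MvPolynomial.aeval_C]
      field_simp
    rw [h2]
    by_cases h0 : P - MvPolynomial.C c * Q = 0
    · left
      rw [h0, map_zero, zero_div]
    · right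
      have h3 : (P - MvPolynomial.C c * Q).totalDegree ≤ δ := by
        refine (MvPolynomial.totalDegree_sub _ _).trans (max_le hP ?_)
        refine (MvPolynomial.totalDegree_mul _ _).trans ?_
        rwa [MvPolynomial.totalDegree_C, zero_add]
      rw [map_div₀, hB _ h0 h3, hv, div_one]

/-- polynomials in `τ` are zero or units -/
theorem br_poly [IsAlgClosed k] {B : ValuationSubring K} {τ : K}
    (h : ∀ c : k, τ - algebraMap k K c = 0 ∨ B.valuation (τ - algebraMap k K c) = 1)
    (hk : ∀ c : k, c ≠ 0 → B.valuation (algebraMap k K c) = 1) (p : k[X]) :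
    aeval τ p = 0 ∨ B.valuation (aeval τ p) = 1 := by
  by_cases hp : p = 0
  · left
    rw [hp, map_zero]
  · have hs := IsAlgClosed.splits p
    rw [hs.eq_prod_roots, map_mul, aeval_C, map_multiset_prod, map_mul]
    have h1 : ∀ s : Multiset K, (∀ y ∈ s, y = 0 ∨ B.valuation y = 1) →
        s.prod = 0 ∨ B.valuation s.prod = 1 := by
      intro s
      induction s using Multiset.induction_on with
      | empty => intro _; right; rw [Multiset.prod_zero, map_one]
      | cons a s ih =>
        intro hs
        rw [Multiset.prod_cons]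
        rcases hs a (Multiset.mem_cons_self a s) with h2 | h2
        · left; rw [h2, zero_mul]
        · rcases ih (fun y hy => hs y (Multiset.mem_cons_of_mem hy)) with h3 | h3
          · left; rw [h3, mul_zero]
          · right; rw [map_mul, h2, h3, one_mul]
    have h4 := h1 (((p.roots.map fun a => X - C a)).map (aeval τ)) (by
      intro y hy
      rw [Multiset.mem_map] at hy
      obtain ⟨q, hq, rfl⟩ := hy
      rw [Multiset.mem_map] at hq
      obtain ⟨a, -, rfl⟩ := hq
      rw [map_sub, aeval_X, aeval_C]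
      exact h a)
    rcases h4 with h4 | h4
    · left
      rw [h4, mul_zero]
    · right
      rw [h4, hk _ (leadingCoeff_ne_zero.2 hp), one_mul]

/-- all nonzero elements of `k(τ)` are units -/
theorem br_adjoin [IsAlgClosed k] {B : ValuationSubring K} {τ : K}
    (h : ∀ c : k, τ - algebraMap k K c = 0 ∨ B.valuation (τ - algebraMap k K c) = 1)
    (hk : ∀ c : k, c ≠ 0 → B.valuation (algebraMap k K c) = 1) {w : K} (hw : w ∈ k⟮τ⟯) :
    w = 0 ∨ B.valuation w = 1 := by
  rw [mem_adjoin_simple_iff] at hw
  obtain ⟨r, s, rfl⟩ := hw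
  rcases br_poly h hk r with h1 | h1
  · left; rw [h1, zero_div]
  · rcases br_poly h hk s with h2 | h2
    · left; rw [h2, div_zero]
    · right; rw [map_div₀, h1, h2, div_one]

/-- elements integral over a field in `B` are in `B` -/
theorem br_int {B : ValuationSubring K} {E : IntermediateField k K} (hE : ∀ w ∈ E, w ∈ B) {z : K}
    (hz : IsAlgebraic E z) : z ∈ B := by
  obtain ⟨f, hf, h0⟩ := hz.isIntegral
  let φ : E →+* B := (algebraMap E K).codRestrict B.toSubring (fun w => hE w.1 w.2)
  have h1 : IsIntegral B z := by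
    refine ⟨f.map φ, hf.map _, ?_⟩
    rw [eval₂_map]
    exact h0
  obtain ⟨y, hy⟩ := (IsIntegrallyClosed.isIntegral_iff (R := B) (K := K)).1 h1
  rw [← hy]
  exact y.2

theorem br_fix [IsAlgClosed k] {x : Fin n → K} {δ : ℕ}
    {P Q : MvPolynomial (Fin n) k} (hP : P.totalDegree ≤ δ) (hQ : Q.totalDegree ≤ δ)
    {g : Gal(K/k)} (hg : InertG x δ g) {z : K}
    (hz : z ∈ ALG.bracket (k := k)
      (fun _ : Fin 1 => MvPolynomial.aeval x P / MvPolynomial.aeval x Q)) : g z = z := by
  obtain ⟨hgF, B, hB, hgB⟩ := hg
  have hk : ∀ c : k, c ≠ 0 → B.valuation (algebraMap k K c) = 1 := by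
    intro c hc
    have h1 := hB (MvPolynomial.C c) (by rwa [Ne, MvPolynomial.C_eq_zero]) (by
      rw [MvPolynomial.totalDegree_C]; exact Nat.zero_le _)
    rwa [MvPolynomial.aeval_C] at h1
  have hE : ∀ w ∈ adjoin k (Set.range
      (fun _ : Fin 1 => MvPolynomial.aeval x P / MvPolynomial.aeval x Q)), w = 0 ∨
      B.valuation w = 1 := by
    intro w hw
    rw [Set.range_const] at hw
    exact br_adjoin (br_sub hB hP hQ) hk hw
  have hEB : ∀ w ∈ adjoin k (Set.range
      (fun _ : Fin 1 => MvPolynomial.aeval x P / MvPolynomial.aeval x Q)), w ∈ B := by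
    intro w hw
    rcases hE w hw with h1 | h1
    · rw [h1]; exact B.zero_mem
    · rw [← B.valuation_le_one_iff, h1]
  have hmem : ∀ w ∈ ALG.bracket (k := k)
      (fun _ : Fin 1 => MvPolynomial.aeval x P / MvPolynomial.aeval x Q), w ∈ B := by
    intro w hw
    rw [ALG.bracket_eq, ALG.mem_ac] at hw
    exact br_int hEB hw
  have hT : ∀ _ : Fin 1, MvPolynomial.aeval x P / MvPolynomial.aeval x Q ∈
      adjoin k (Set.range x) := by
    have h1 : ∀ R : MvPolynomial (Fin n) k, MvPolynomial.aeval x R ∈ adjoin k (Set.range x) := by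
      intro R
      apply algebra_adjoin_le_adjoin
      rw [Algebra.adjoin_range_eq_range_aeval]
      exact ⟨R, rfl⟩
    exact fun _ => div_mem (h1 P) (h1 Q)
  have hgz := ALG.bracket_stable hT hgF hz
  have h2 := sub_mem hgz hz
  by_contra hne
  have h3 : g z - z ≠ 0 := sub_ne_zero.2 hne
  have h4 := hmem _ (inv_mem h2)
  have h5 := hgB z (hmem z hz)
  rw [CopVal.lt_one_iff] at h5
  rcases h5 with h5 | h5
  · exact h3 h5
  · exact h5 h4

/-- all algebraic functions of a rational function of degree at most `δ` are in `F_(s,δ)` -/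
theorem bracket_le_genS' [IsAlgClosed k] (x : Fin n → K) (δ N s : ℕ)
    (P Q : MvPolynomial (Fin n) k) (hP : P.totalDegree ≤ δ) (hQ : Q.totalDegree ≤ δ) :
    ALG.bracket (k := k) (fun _ : Fin 1 => MvPolynomial.aeval x P / MvPolynomial.aeval x Q) ≤
      genS x δ N s := by
  intro z hz
  refine mem_genS.2 ⟨1, Nat.coprime_one_left N, fun g hg => ?_⟩
  refine fix_mul_left ?_ (N ^ s)
  rw [pow_one]
  exact br_fix hP hQ hg hz

end RS
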