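import Pool.Agent.H20.KG.IndG
import Pool.Agent.H20.KG.Br

/-!
The final theorem over the compositum of the `[t_1, …, t_r]` with `t_i ∈ F_(s,δ)`.
-/

set_option linter.style.haveILetI false

namespace RS

open Polynomial IntermediateField

variable {k K : Type*} [Field k] [Field K] [Algebra k K]
variable {m n : ℕ} {x : Fin n → K} {y w : Fin m → K} (hmn : m ≤ n) {N : ℕ}

/-- the fields `M_r^s` depend on `k(x)` only -/
theorem M_congr {x x' : Fin n → K} (h : adjoin k (Set.range x') = adjoin k (Set.range x))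
    (r s : ℕ) : ALG.M k x' r s = ALG.M k x r s := by
  induction s using Nat.strong_induction_on with
  | _ s ih =>
    rcases s with _ | _ | s
    · exact h
    · exact h
    · rw [ALG.M, ALG.M, ih (s + 1) (by omega)]

/-- `0`-generic means containing `k` -/
theorem genS_zero (x : Fin n → K) (N s : ℕ) :
    genS (k := k) x 0 N s = ramS N s (adjoin k (Set.range x)) := by
  apply le_antisymm
  · intro z hz
    obtain ⟨e, he, h⟩ := mem_genS.1 hz
    refine mem_ramS.2 ⟨e, he, fun g hg => h g ?_⟩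
    obtain ⟨hF, B, hB, hgB⟩ := hg
    refine ⟨hF, B, fun P hP hd => ?_, hgB⟩
    obtain ⟨c, rfl⟩ : ∃ c, P = MvPolynomial.C c :=
      ⟨_, (MvPolynomial.totalDegree_eq_zero_iff_eq_C).1 (Nat.le_zero.1 hd)⟩
    have hc : c ≠ 0 := fun h0 => hP (by rw [h0, MvPolynomial.C_0])
    rw [MvPolynomial.aeval_C]
    have h1 := (B.valuation_le_one_iff _).2 (hB c)
    have h2 := (B.valuation_le_one_iff _).2 (hB c⁻¹)
    apply le_antisymm h1
    rw [map_inv₀, map_inv₀] at h2
    have h3 : B.valuation (algebraMap k K c) ≠ 0 :=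
      (Valuation.ne_zero_iff _).2 ((_root_.map_ne_zero _).2 hc)
    exact (inv_le_one₀ (zero_lt_iff.2 h3)).1 h2
  · exact ramS_le_genS x 0 N s

theorem stb_genS [IsAlgClosed k] (hN : N.Prime) (hn : 0 < n) {x x'' : Fin n → K} (δ s : ℕ)
    (hxx : ∀ l, x'' l ^ (N ^ s) = xk hn x (δ + 1) l) : Stb x'' (genS (k := k) x δ N s) := by
  have had := adjoin_xk' (k := k) hn (x := x) (δ + 1)
  refine ⟨?_, fun g hg z hz => ?_⟩
  · refine (stb_ramS (k := k) hN s hxx).le.trans ?_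
    rw [had]
    exact ramS_le_genS x δ N s
  · refine genS_stable ?_ hz
    rw [← had]
    exact fixingSubgroup_antitone (F_le_of_pow hxx) hg

/-- rotations over `F_(s,δ)` -/
theorem hasRot_genS [IsAlgClosed k] [IsAlgClosed K] (hx : IsTranscendenceBasis k x) {r : ℕ}
    (hr : r < m) (hm : m < n) (hn : 0 < n) (hN : N.Prime) (hN3 : 3 ≤ N) (hNk : (N : k) ≠ 0)
    (δ s : ℕ) {x'' : Fin n → K} (hxx : ∀ l, x'' l ^ (N ^ s) = xk hn x (δ + 1) l)
    (hy' : ∀ j, y j ^ N = x'' (Fin.castLE hmn j)) (hw : ∀ j, w j ^ N = 1 + y j) :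
    HasRot k (genS x δ N s) N r (∏ j, w j) := by
  obtain ⟨p, hp⟩ := ExpChar.exists k
  have hNp : Nat.Coprime N p := coprime_of_ne_zero (k := k) p hNk
  have had := adjoin_xk' (k := k) hn (x := x) (δ + 1)
  have hx' : IsTranscendenceBasis k (xk hn x (δ + 1)) := basis_of_adjoin_eq' hx had
  intro u hu
  refine exists_g_stb hmn (basis_of_pow hx' hxx) p hN.two_le hNp hN hNp hy' hw hr
    (stb_genS hN hn δ s hxx) (indep_genS hmn hm hn hx hN hNk δ s hxx) u hu
    (fun i c hc0 hc1 _ => exists_h_genS hN hN3 hNk hn hx δ s hxx (Fin.castLE hmn i) ?_ (hy' i) hu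
      hc0 hc1)
  intro h
  have h1 := congrArg Fin.val h
  have h2 := i.2
  simp [lst] at h1
  omega

include hmn in
/-- SANDWICH over `F_(s,δ)`, `m < n` -/
theorem sandwich_genS [IsAlgClosed k] [IsAlgClosed K] (hx : IsTranscendenceBasis k x) {r : ℕ}
    (hr1 : 1 ≤ r) (hr : r < m) (hm : m < n) {d q : ℕ} (hq : q.Prime) (hdq : d < q) (hq5 : 5 ≤ q)
    (hqN : q < N) (hN : N.Prime) (hNk : (N : k) ≠ 0) (δ s : ℕ) :
    ∃ e : K, e ∈ ALG.M k x 1 3 ∧ e ∈ ALG.M k x m 2 ∧
      ∀ L : IntermediateField k K, ALG.Tower d (comp (genS x δ N s) r) L → e ∉ L := by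
  have hn : 0 < n := by omega
  have hpos : 0 < N ^ (s + 1) := Nat.pow_pos hN.pos
  have had := adjoin_xk' (k := k) hn (x := x) (δ + 1)
  have hx' : IsTranscendenceBasis k (xk hn x (δ + 1)) := basis_of_adjoin_eq' hx had
  have hyex : ∀ j : Fin m, ∃ y : K, y ^ (N ^ (s + 1)) = xk hn x (δ + 1) (Fin.castLE hmn j) :=
    fun j => IsAlgClosed.exists_pow_nat_eq _ hpos
  choose y hy using hyex
  have hwex : ∀ j : Fin m, ∃ w : K, w ^ N = 1 + y j := fun j =>
    IsAlgClosed.exists_pow_nat_eq _ hN.pos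
  choose w hw using hwex
  let j₀ : Fin m := ⟨0, by omega⟩
  let j₁ : Fin m := ⟨1, by omega⟩
  have hj : j₁ ≠ j₀ := by
    intro h
    have := congrArg Fin.val h
    simp [j₀, j₁] at this
  obtain ⟨x'', hxx, hy'⟩ := exists_x' hmn hN s hy
  have hx'' := basis_of_pow hx' hxx
  obtain ⟨e, he, hL⟩ := sandwich_stb hmn hx'' hr1 hr hq hdq hq5 hqN hN hNk
    (stb_genS hN hn δ s hxx) hy' hw
    (hasRot_genS hmn hx hr hm hn hN (by omega) hNk δ s hxx hy' hw) hj
  rw [← hy' j₀] at he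
  obtain ⟨hT1, hT2⟩ := T_mem (k := k) hmn hN s hy hw j₀
  obtain ⟨h1, h2⟩ := mem_of_alg hmn hT1 hT2 he
  rw [M_congr had] at h1 h2
  exact ⟨e, h1, h2, hL⟩

include hmn in
/-- SANDWICH over `F_(s,δ)` -/
theorem sandwich_all [IsAlgClosed k] [IsAlgClosed K] (hx : IsTranscendenceBasis k x) {r : ℕ}
    (hr1 : 1 ≤ r) (hr : r < m) {d q : ℕ} (hq : q.Prime) (hdq : d < q) (hq5 : 5 ≤ q)
    (hqN : q < N) (hN : N.Prime) (hNk : (N : k) ≠ 0) (δ s : ℕ) (hδ : δ = 0 ∨ m < n) :
    ∃ e : K, e ∈ ALG.M k x 1 3 ∧ e ∈ ALG.M k x m 2 ∧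
      ∀ L : IntermediateField k K, ALG.Tower d (comp (genS x δ N s) r) L → e ∉ L := by
  rcases hδ with rfl | hm
  · rw [genS_zero]
    exact sandwich_ramS hmn hx hr1 hr hq hdq hq5 hqN hN hNk s
  · exact sandwich_genS hmn hx hr1 hr hm hq hdq hq5 hqN hN hNk δ s

/-- `FG k x δ N s`: all `z ∈ K` such that, for some `e` prime to `N`, `g ^ (e * N ^ s)` fixes `z` for
all `δ`-inert automorphisms `g` of `K` over `k(x)` -/
def FG (k : Type*) [Field k] [Algebra k K] {n : ℕ} (x : Fin n → K) (δ N s : ℕ) :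
    IntermediateField k K :=
  genS x δ N s

/-- `MG k x δ N s r`: the compositum of all `[t_1, …, t_r]` with `t_i ∈ FG k x δ N s` -/
noncomputable def MG (k : Type*) [Field k] [Algebra k K] {n : ℕ} (x : Fin n → K)
    (δ N s r : ℕ) : IntermediateField k K :=
  comp (FG k x δ N s) r

end RS
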