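import Pool.Agent.H20.KG.Fin

/-!
Every finite Galois extension of `k(T)` of degree prime to `N`, over the compositum of the
`[t_1, …, t_r]` with `t_i ∈ F_(s,δ)`.
-/

set_option linter.style.haveILetI false

namespace RS

open Polynomial IntermediateField

variable {k K : Type*} [Field k] [Field K] [Algebra k K]
variable {m n : ℕ} {x : Fin n → K} {y w : Fin m → K} (hmn : m ≤ n) {N : ℕ}

/-- the theorem over `F_(s,δ)`, `m < n` -/
theorem main_genS [IsAlgClosed k] [IsAlgClosed K] (hx : IsTranscendenceBasis k x) {r : ℕ}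
    (hr1 : 1 ≤ r) (hr : r < m) (hm : m < n) (hn : 0 < n) (hN : N.Prime) (hN3 : 3 ≤ N)
    (hNk : (N : k) ≠ 0) (δ s : ℕ)
    (hy : ∀ j, y j ^ (N ^ (s + 1)) = xk hn x (δ + 1) (Fin.castLE hmn j))
    (hw : ∀ j, w j ^ N = 1 + y j) (j₀ : Fin m)
    {E : Type*} [Field E] [Algebra k E] [Algebra (RatFunc k) E]
    [IsScalarTower k (RatFunc k) E] [FiniteDimensional (RatFunc k) E] [IsGalois (RatFunc k) E]
    (hcN : Nat.Coprime (Module.finrank (RatFunc k) E) N) :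
    (∃ τ : E →ₐ[k] K, τ (algebraMap (RatFunc k) E RatFunc.X) = y j₀ ^ N + ∏ j, w j) ∧
    ∀ τ : E →ₐ[k] K, τ (algebraMap (RatFunc k) E RatFunc.X) = y j₀ ^ N + ∏ j, w j →
      τ (algebraMap (RatFunc k) E RatFunc.X) ∈ ALG.M k x 1 2 ∧
      (∀ v : E, τ v ∈ ALG.M k x 1 3 ∧ τ v ∈ ALG.M k x m 2) ∧
      (∀ v : E, τ v ∈ comp (genS (k := k) x δ N s) r ↔ v ∈ Set.range (algebraMap (RatFunc k) E)) ∧
      ∀ σ : Gal(E/RatFunc k), ∃ g ∈ (comp (genS (k := k) x δ N s) r).fixingSubgroup,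
        ∀ v, τ (σ v) = g (τ v) := by
  have had := adjoin_xk' (k := k) hn (x := x) (δ + 1)
  have hx' : IsTranscendenceBasis k (xk hn x (δ + 1)) := basis_of_adjoin_eq' hx had
  obtain ⟨x'', hxx, hy'⟩ := exists_x' hmn hN s hy
  have hx'' := basis_of_pow hx' hxx
  obtain ⟨hex, -⟩ := main_all (E := E) hmn hx'' hr1 hr hN.two_le hNk hN hNk hcN hcN hy' hw j₀
  rw [← hy' j₀] at hex
  refine ⟨hex, fun τ hτ => ?_⟩
  obtain ⟨hT1, hT2⟩ := T_mem (k := k) hmn hN s hy hw j₀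
  obtain ⟨h3, h4⟩ := main_comp_stb (E := E) hmn hx'' hr1 hr hN.two_le hNk hN hNk hcN hcN
    (stb_genS hN hn δ s hxx) (hasRot_genS hmn hx hr hm hn hN hN3 hNk δ s hxx hy' hw) hy' hw j₀ τ
    (by rw [← hy' j₀]; exact hτ)
  refine ⟨?_, fun v => ?_, h3, h4⟩
  · rw [hτ, ← M_congr had]
    exact hT1
  · have h5 := mem_of_alg hmn hT1 hT2
      (isAlgebraic_tau τ (by rw [hτ]; exact mem_adjoin_simple_self k _) v)
    rw [M_congr had, M_congr had] at h5
    exact h5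

/-- the new basis, or `x` itself for `δ = 0` -/
theorem main_all_genS [IsAlgClosed k] [IsAlgClosed K] (hx : IsTranscendenceBasis k x) {r : ℕ}
    (hr1 : 1 ≤ r) (hr : r < m) (hN : N.Prime) (hNk : (N : k) ≠ 0) (δ s : ℕ)
    (hδ : δ = 0 ∨ (m < n ∧ N ≠ 2)) :
    ∃ X : Fin m → K, (∀ j, X j ∈ adjoin k (Set.range x)) ∧
      (δ = 0 → ∀ j, X j = x (Fin.castLE hmn j)) ∧
      ∀ y w : Fin m → K, (∀ j, y j ^ (N ^ (s + 1)) = X j) → (∀ j, w j ^ N = 1 + y j) →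
      ∀ (i : Fin m) (E : Type*) [Field E] [Algebra k E] [Algebra (RatFunc k) E]
        [IsScalarTower k (RatFunc k) E] [FiniteDimensional (RatFunc k) E]
        [IsGalois (RatFunc k) E],
      Nat.Coprime (Module.finrank (RatFunc k) E) N →
      (∃ τ : E →ₐ[k] K, τ (algebraMap (RatFunc k) E RatFunc.X) = y i ^ N + ∏ j, w j) ∧
      ∀ τ : E →ₐ[k] K, τ (algebraMap (RatFunc k) E RatFunc.X) = y i ^ N + ∏ j, w j →
        τ (algebraMap (RatFunc k) E RatFunc.X) ∈ ALG.M k x 1 2 ∧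
        (∀ v : E, τ v ∈ ALG.M k x 1 3 ∧ τ v ∈ ALG.M k x m 2) ∧
        (∀ v : E, τ v ∈ comp (genS (k := k) x δ N s) r ↔ v ∈ Set.range (algebraMap (RatFunc k) E)) ∧
        ∀ σ : Gal(E/RatFunc k), ∃ g ∈ (comp (genS (k := k) x δ N s) r).fixingSubgroup,
          ∀ v, τ (σ v) = g (τ v) := by
  by_cases h0 : δ = 0
  · subst h0
    refine ⟨fun j => x (Fin.castLE hmn j), fun j => subset_adjoin k _ ⟨_, rfl⟩, fun _ _ => rfl, ?_⟩
    intro y w hy hw i E _ _ _ _ _ _ hNE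
    rw [genS_zero]
    exact main_ramS hmn hx hr1 hr hN hNk s hy hw i hNE
  · obtain ⟨hm, hN2⟩ : m < n ∧ N ≠ 2 := hδ.resolve_left h0
    have hn : 0 < n := by omega
    have h2 := hN.two_le
    refine ⟨fun j => xk hn x (δ + 1) (Fin.castLE hmn j), fun j => ?_, fun h => absurd h h0, ?_⟩
    · rw [← adjoin_xk' (k := k) hn (x := x) (δ + 1)]
      exact subset_adjoin k _ ⟨_, rfl⟩
    · intro y w hy hw i E _ _ _ _ _ _ hNE
      exact main_genS hmn hx hr1 hr hm hn hN (by omega) hNk δ s hy hw i hNE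

end RS
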