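import Mathlib

/-!
Kronecker substitution.
-/

namespace RS

open Polynomial

private theorem kron_exp {n D : ℕ} (α : Fin n →₀ ℕ) :
    ∑ j : Fin n, D ^ (n - 1 - (j : ℕ)) * α j = ∑ i : Fin n, α (Fin.rev i) * D ^ (i : ℕ) := by
  refine Fintype.sum_equiv Fin.revPerm _ _ fun j => ?_
  have h1 : n - 1 - (j : ℕ) = n - ((j : ℕ) + 1) := by omega
  rw [Fin.revPerm_apply, Fin.rev_rev, Fin.val_rev, h1, mul_comm]

private theorem kron_inj {n D : ℕ} {α β : Fin n →₀ ℕ} (hα : ∀ j, α j < D) (hβ : ∀ j, β j < D)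
    (h : ∑ j : Fin n, D ^ (n - 1 - (j : ℕ)) * α j = ∑ j : Fin n, D ^ (n - 1 - (j : ℕ)) * β j) :
    α = β := by
  rw [kron_exp, kron_exp] at h
  have h1 : finFunctionFinEquiv (fun i : Fin n => (⟨α (Fin.rev i), hα _⟩ : Fin D)) =
      finFunctionFinEquiv (fun i : Fin n => (⟨β (Fin.rev i), hβ _⟩ : Fin D)) := by
    apply Fin.ext
    rw [finFunctionFinEquiv_apply, finFunctionFinEquiv_apply]
    exact h
  have h2 := finFunctionFinEquiv.injective h1
  ext j
  have h3 := congrFun h2 (Fin.rev j)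
  have h4 := congrArg Fin.val h3
  simpa [Fin.rev_rev] using h4

/-- a nonzero polynomial of total degree less than `D` does not vanish under
`X_j ↦ X ^ (D ^ (n - 1 - j))` -/
theorem kron_ne_zero {k : Type*} [Field k] {n D : ℕ} (P : MvPolynomial (Fin n) k) (hP : P ≠ 0)
    (hD : P.totalDegree < D) :
    MvPolynomial.aeval (fun j : Fin n => (X : k[X]) ^ (D ^ (n - 1 - (j : ℕ)))) P ≠ 0 := by
  classical
  obtain ⟨α₀, hα₀⟩ : ∃ α₀, α₀ ∈ P.support := by
    by_contra hcon
    push Not at hcon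
    apply hP
    rw [← MvPolynomial.support_eq_empty]
    exact Finset.eq_empty_of_forall_notMem hcon
  have hb : ∀ α ∈ P.support, ∀ j, α j < D := by
    intro α hα j
    have h1 := MvPolynomial.le_totalDegree hα
    have h2 : α j ≤ α.sum fun _ e => e := by
      rw [Finsupp.sum_fintype _ _ fun _ => rfl]
      exact Finset.single_le_sum (f := fun j => α j) (fun _ _ => Nat.zero_le _) (Finset.mem_univ j)
    omega
  intro h0
  have h1 : MvPolynomial.aeval (fun j : Fin n => (X : k[X]) ^ (D ^ (n - 1 - (j : ℕ)))) P =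
      ∑ α ∈ P.support, C (P.coeff α) * X ^ (∑ j : Fin n, D ^ (n - 1 - (j : ℕ)) * α j) := by
    rw [MvPolynomial.aeval_def, MvPolynomial.eval₂_eq']
    refine Finset.sum_congr rfl fun α _ => ?_
    rw [← Finset.prod_pow_eq_pow_sum]
    congr 1
    refine Finset.prod_congr rfl fun j _ => ?_
    rw [← pow_mul]
  rw [h1] at h0
  have h2 := congrArg (fun p : k[X] => p.coeff (∑ j : Fin n, D ^ (n - 1 - (j : ℕ)) * α₀ j)) h0
  simp only [Polynomial.finsetSum_coeff, coeff_C_mul_X_pow, coeff_zero] at h2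
  rw [Finset.sum_eq_single α₀] at h2
  · rw [if_pos rfl] at h2
    exact (MvPolynomial.mem_support_iff.1 hα₀) h2
  · intro β hβ hne
    rw [if_neg]
    intro h
    exact hne (kron_inj (hb _ hβ) (hb _ hα₀) h.symm)
  · intro h
    exact absurd hα₀ h

end RS
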