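import Pool.Agent.H20.KG.Pri
import Pool.Agent.H20.KG.Kron
import Pool.Agent.H20.KG.BasA
import Pool.Agent.H20.KG.BasE
import Pool.Agent.H20.KG.BasL

/-!
Generic valuation rings.
-/

set_option linter.style.haveILetI false

namespace RS

open Polynomial IntermediateField

variable {k K : Type*} [Field k] [Field K] [Algebra k K] {n : ℕ}

/-- a valuation ring trivial on `Ω` with the point `x` near a generic point `c` of `Ω` -/
theorem gnr_of_near {x c : Fin n → K} {B : ValuationSubring K} (Ω : IntermediateField k K)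
    (hΩ : ∀ a ∈ Ω, a ≠ 0 → B.valuation a = 1) (hc : ∀ j, c j ∈ Ω)
    (hxc : ∀ j, B.valuation (x j - c j) < 1) {δ : ℕ}
    (hP : ∀ P : MvPolynomial (Fin n) k, P ≠ 0 → P.totalDegree ≤ δ →
      MvPolynomial.aeval c P ≠ 0) : Gnr k x δ B := by
  intro P hP0 hd
  have hΩB : ∀ a ∈ Ω, a ∈ B := by
    intro a ha
    rw [← B.valuation_le_one_iff]
    by_cases h0 : a = 0
    · rw [h0, map_zero]; exact zero_le_one
    · rw [hΩ a ha h0]
  have hcP : MvPolynomial.aeval c P ∈ Ω := by
    have h1 : MvPolynomial.aeval c P ∈ Algebra.adjoin k (Set.range c) :=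
      MvPolynomial.aeval_range (R := k) (f := c) ▸ ⟨P, rfl⟩
    have h2 : Algebra.adjoin k (Set.range c) ≤ Ω.toSubalgebra := by
      rw [Algebra.adjoin_le_iff]
      rintro _ ⟨j, rfl⟩
      exact hc j
    exact h2 h1
  have h1 : B.valuation (MvPolynomial.aeval c P) = 1 := hΩ _ hcP (hP P hP0 hd)
  have h2 := (val_aeval_near' (k := k) (x := x) (c := c) (B := B)
    (fun a => hΩB _ (Ω.algebraMap_mem a)) (fun j => hΩB _ (hc j)) hxc P).1
  have h3 : MvPolynomial.aeval x P = (MvPolynomial.aeval x P - MvPolynomial.aeval c P) +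
      MvPolynomial.aeval c P := by ring
  rw [h3, Valuation.map_add_eq_of_lt_right _ (by rw [h1]; exact h2), h1]

/-- Kronecker substitution in `K` -/
theorem kron_K (hn : 0 < n) {x : Fin n → K} (hx : AlgebraicIndependent k x) {δ : ℕ}
    (P : MvPolynomial (Fin n) k) (hP : P ≠ 0) (hd : P.totalDegree ≤ δ) :
    MvPolynomial.aeval (fun j : Fin n => x (lst hn) ^ ((δ + 1) ^ (n - 1 - (j : ℕ)))) P ≠ 0 := by
  have h1 := kron_ne_zero P hP (Nat.lt_succ_of_le hd)
  have ht : Transcendental k (x (lst hn)) := hx.transcendental _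
  intro h0
  apply ht
  refine ⟨_, h1, ?_⟩
  rw [← h0]
  have h2 := MvPolynomial.comp_aeval_apply (R := k)
    (f := fun j : Fin n => (X : k[X]) ^ ((δ + 1) ^ (n - 1 - (j : ℕ))))
    (φ := Polynomial.aeval (R := k) (x (lst hn))) P
  rw [h2]
  congr 1
  congr 1
  funext j
  rw [map_pow, aeval_X]

/-- partial Kronecker substitution in `K` -/
theorem kron_K_part (hn : 0 < n) {x : Fin n → K} (hx : AlgebraicIndependent k x) {δ : ℕ}
    (i : Fin n) (P : MvPolynomial (Fin n) k) (hP : P ≠ 0) (hd : P.totalDegree ≤ δ) :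
    MvPolynomial.aeval (fun j : Fin n => if j = i then
      x (lst hn) ^ ((δ + 1) ^ (n - 1 - (i : ℕ))) else x j) P ≠ 0 := by
  classical
  have h1 := kron_ne_zero P hP (Nat.lt_succ_of_le hd)
  let q : Fin n → MvPolynomial (Fin n) k := fun j => if j = i then
    MvPolynomial.X (lst hn) ^ ((δ + 1) ^ (n - 1 - (i : ℕ))) else MvPolynomial.X j
  intro h0
  have h2 : MvPolynomial.aeval x (MvPolynomial.aeval q P) = 0 := by
    rw [← h0, MvPolynomial.comp_aeval_apply]
    congr 1
    congr 1
    funext j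
    simp only [q]
    split_ifs
    · rw [map_pow, MvPolynomial.aeval_X]
    · rw [MvPolynomial.aeval_X]
  have h3 : MvPolynomial.aeval q P = 0 := (algebraicIndependent_iff.1 hx) _ h2
  apply h1
  have h4 : MvPolynomial.aeval (fun j : Fin n => (X : k[X]) ^ ((δ + 1) ^ (n - 1 - (j : ℕ))))
      (MvPolynomial.aeval q P) = MvPolynomial.aeval
        (fun j : Fin n => (X : k[X]) ^ ((δ + 1) ^ (n - 1 - (j : ℕ)))) P := by
    rw [MvPolynomial.comp_aeval_apply]
    congr 1
    congr 1
    funext j
    simp only [q]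
    split_ifs with h
    · rw [map_pow, MvPolynomial.aeval_X, h]
      have h5 : n - 1 - ((lst hn : Fin n) : ℕ) = 0 := by
        simp [lst]
      rw [h5, pow_zero, pow_one]
    · rw [MvPolynomial.aeval_X]
  rw [← h4, h3, map_zero]

/-- the basis elements are at infinity -/
theorem one_lt_val {κ K : Type*} [Field κ] [Field K] [Algebra κ K] {n : ℕ} {x : Fin n → K}
    {B : ValuationSubring K}
    (hB2 : ∀ a b : MvPolynomial (Fin n) κ, a ≠ 0 → b ≠ 0 →
        B.valuation (MvPolynomial.aeval x a) = B.valuation (MvPolynomial.aeval x b) →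
          (MonomialOrder.lex : MonomialOrder (Fin n)).degree a =
            (MonomialOrder.lex : MonomialOrder (Fin n)).degree b) (j : Fin n) :
    1 < B.valuation (x j) := by
  let mo : MonomialOrder (Fin n) := MonomialOrder.lex
  have hdX : mo.degree (MvPolynomial.X j : MvPolynomial (Fin n) κ) = Finsupp.single j 1 :=
    mo.degree_X
  have hd1 : mo.degree (1 : MvPolynomial (Fin n) κ) = 0 := mo.degree_one
  have hX0 : (MvPolynomial.X j : MvPolynomial (Fin n) κ) ≠ 0 := MvPolynomial.X_ne_zero j
  have hs : (Finsupp.single j 1 : Fin n →₀ ℕ) ≠ 0 := by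
    intro h0
    have := congrArg (fun f => f j) h0
    simp at this
  rcases lt_trichotomy (B.valuation (x j)) 1 with h | h | h
  · exfalso
    have hdeg : mo.degree (MvPolynomial.X j + 1 : MvPolynomial (Fin n) κ) =
        Finsupp.single j 1 := by
      rw [mo.degree_add_of_lt, hdX]
      rw [hdX, hd1, map_zero]
      refine lt_of_le_of_ne (mo.zero_le _) (fun h0 => hs ?_)
      exact mo.toSyn.injective (by rw [← h0, map_zero])
    have hne : (MvPolynomial.X j + 1 : MvPolynomial (Fin n) κ) ≠ 0 := by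
      intro h0
      rw [h0, mo.degree_zero] at hdeg
      exact hs hdeg.symm
    have h1 := hB2 (MvPolynomial.X j + 1) 1 hne one_ne_zero (by
      rw [map_add, map_one, MvPolynomial.aeval_X, map_one, add_comm]
      exact Valuation.map_one_add_of_lt _ h)
    have h2 : mo.degree (MvPolynomial.X j + 1 : MvPolynomial (Fin n) κ) =
      mo.degree (1 : MvPolynomial (Fin n) κ) := h1
    rw [hdeg, hd1] at h2
    exact hs h2
  · exfalso
    have h1 := hB2 (MvPolynomial.X j) 1 hX0 one_ne_zero (by
      rw [MvPolynomial.aeval_X, map_one, map_one]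
      exact h)
    have h2 : mo.degree (MvPolynomial.X j : MvPolynomial (Fin n) κ) =
      mo.degree (1 : MvPolynomial (Fin n) κ) := h1
    rw [hdX, hd1] at h2
    exact hs h2
  · exact h

end RS
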