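import Pool.Agent.H20.KG.MovG
import Pool.Agent.H20.RU.Val
import Pool.Agent.H20.RU.Fin

/-!
Kummer independence over `F_(s,δ)` for the new basis, for `m < n`.
-/

set_option linter.style.haveILetI false

namespace RS

open Polynomial IntermediateField

variable {k K : Type*} [Field k] [Field K] [Algebra k K]

theorem isAlgClosed_ac [IsAlgClosed K] (Ω : IntermediateField k K) : IsAlgClosed (ALG.ac Ω) := by
  have h1 : IsAlgClosed (algebraicClosure Ω K) :=
    (algebraicClosure.isAlgClosure (F := Ω) (E := K)).isAlgClosed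
  exact h1

theorem indep_genS [IsAlgClosed k] [IsAlgClosed K] {m n : ℕ} (hmn : m ≤ n) (hm : m < n)
    (hn : 0 < n) {x x'' : Fin n → K} (hx : IsTranscendenceBasis k x) {N : ℕ} (hN : N.Prime)
    (hNk : (N : k) ≠ 0) (δ s : ℕ) (hxx : ∀ l, x'' l ^ (N ^ s) = xk hn x (δ + 1) l) :
    IndepI (k := k) hmn x'' (genS (k := k) x δ N s) N := by
  classical
  have had := adjoin_xk' (k := k) hn (x := x) (δ + 1)
  have hx' : IsTranscendenceBasis k (xk hn x (δ + 1)) := basis_of_adjoin_eq' hx had
  have hX := basis_lst' hn hx'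
  set k₁ := ALG.ac k⟮xk hn x (δ + 1) (lst hn)⟯ with hk₁
  haveI : IsAlgClosed k₁ := isAlgClosed_ac (k := k) (K := K) k⟮xk hn x (δ + 1) (lst hn)⟯
  set X' : Fin (n - 1) → K := fun j => xk hn x (δ + 1) (Fin.castLE (Nat.sub_le n 1) j) with hX'
  obtain ⟨B, hB1, hB2, hB3⟩ := exists_val_res (k := k₁) hX
  have hBΩ : ∀ a ∈ k₁, a ≠ 0 → B.valuation a = 1 := fun a ha h0 =>
    hB1 ⟨a, ha⟩ (fun h => h0 (congrArg Subtype.val h))
  have hlast' : xk hn x (δ + 1) (lst hn) ∈ k₁ := ALG.le_ac _ (mem_adjoin_simple_self k _)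
  have hlast : x (lst hn) ∈ k₁ := by
    rw [← xk_lst hn x (δ + 1)]
    exact hlast'
  have hnl : ∀ j : Fin n, j ≠ lst hn → ∃ j' : Fin (n - 1), Fin.castLE (Nat.sub_le n 1) j' = j := by
    intro j hj
    have h1 : (j : ℕ) < n - 1 := by
      have h2 : (j : ℕ) ≠ n - 1 := fun h => hj (Fin.ext h)
      have := j.2
      omega
    exact ⟨⟨j, h1⟩, Fin.ext rfl⟩
  -- `B` is generic
  have hgen : Gnr k x δ B := by
    refine gnr_of_near (c := fun j : Fin n => x (lst hn) ^ ((δ + 1) ^ (n - 1 - (j : ℕ)))) k₁ hBΩ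
      (fun j => pow_mem hlast _) (fun j => ?_) (fun P hP hd => kron_K hn hx.1 P hP hd)
    by_cases hj : j = lst hn
    · rw [hj]
      have h5 : n - 1 - ((lst hn : Fin n) : ℕ) = 0 := by simp [lst]
      rw [h5, pow_zero, pow_one, sub_self, map_zero]
      exact zero_lt_one
    · obtain ⟨j', hj'⟩ := hnl j hj
      have h1 : x j - x (lst hn) ^ ((δ + 1) ^ (n - 1 - (j : ℕ))) = (xk hn x (δ + 1) j)⁻¹ := by
        rw [xk_ne hn x (δ + 1) hj, inv_inv]
      have h2 : 1 < B.valuation (xk hn x (δ + 1) j) := by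
        rw [← hj']
        exact one_lt_val hB2 j'
      rw [h1, map_inv₀]
      exact inv_lt_one_of_one_lt₀ h2
  have hN1 : 1 ≤ N ^ s := Nat.one_le_pow _ _ hN.pos
  have hNk₁ : (N : k₁) ≠ 0 := by
    intro h
    apply hNk
    apply (algebraMap k k₁).injective
    rw [map_natCast, map_zero, h]
  have hcon : ∀ c : k₁, algebraMap k₁ K c ∈ B := by
    intro c
    rw [← B.valuation_le_one_iff]
    by_cases h0 : c = 0
    · rw [h0, map_zero, map_zero]
      exact zero_le_one
    · rw [hB1 c h0]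
  haveI : Algebra.IsAlgebraic (adjoin k₁ (Set.range X')) K := hX.isAlgebraic_field
  -- `x` lies in `k₁(X')`
  have hxF : ∀ l, x l ∈ adjoin k₁ (Set.range X') := by
    intro l
    have hl1 : x (lst hn) ∈ adjoin k₁ (Set.range X') :=
      (adjoin k₁ (Set.range X')).algebraMap_mem ⟨x (lst hn), hlast⟩
    by_cases hl : l = lst hn
    · rw [hl]; exact hl1
    · obtain ⟨j', hj'⟩ := hnl l hl
      rw [x_eq_xk hn x (δ + 1) hl, xk_lst]
      refine add_mem (inv_mem ?_) (pow_mem hl1 _)
      exact subset_adjoin k₁ _ ⟨j', by rw [hX']; exact congrArg _ hj'⟩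
  have hval : ∀ z : K, z ≠ 0 → z ∈ genS (k := k) x δ N s → ∃ c : ℕ, Nat.Coprime c N ∧
      ∃ b ∈ adjoin k₁ (Set.range X'), B.valuation z ^ (c * N ^ s) = B.valuation b := by
    intro z hz0 hz
    obtain ⟨p, hp⟩ := ExpChar.exists k₁
    obtain ⟨e, he, hez⟩ := mem_genS.1 hz
    refine CopValR.main (fun V hV B B' h => ?_) _ B hB1 hB3 N hN hNk₁ s hz0
      ⟨e, he, fun g hgF hgB => ?_⟩
    · refine exists_conj_val p V ?_ B B' h
      rw [eq_top_iff]
      intro y _
      rw [ALG.mem_ac]
      exact hV.isAlgebraic y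
    · have hin : InertG (k := k) x δ (g.restrictScalars k) := by
        refine ⟨?_, B, hgen, fun b hb => ?_⟩
        · rw [ALG.mem_fs_adjoin]
          rintro _ ⟨l, rfl⟩
          exact ALG.mem_fs.1 hgF _ (hxF l)
        · change B.valuation (g b - b) < 1
          have hlt : ∀ y : K, B.valuation y < 1 → B.valuation (g y) < 1 := by
            intro y hy
            rw [CopVal.lt_one_iff] at hy ⊢
            rcases hy with h | h
            · left
              rw [h, map_zero]
            · right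
              rw [← map_inv₀, ← hgB]
              exact h
          rcases lt_or_eq_of_le ((B.valuation_le_one_iff b).2 hb) with h | h
          · exact (B.valuation.map_sub _ _).trans_lt (max_lt (hlt b h) h)
          · obtain ⟨c, -, hc1⟩ := hB3 b h
            have h1 : g b - b = g (b - algebraMap k₁ K c) - (b - algebraMap k₁ K c) := by
              rw [map_sub, AlgEquiv.commutes]; ring
            rw [h1]
            exact (B.valuation.map_sub _ _).trans_lt (max_lt (hlt _ hc1) hc1)
      have h1 := hez (g.restrictScalars k) hin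
      have h2 : ∀ i : ℕ, ∀ v : K, ((g.restrictScalars k) ^ i) v = (g ^ i) v := by
        intro i
        induction i with
        | zero => intro v; rfl
        | succ i ih =>
          intro v
          rw [pow_succ', pow_succ', AlgEquiv.mul_apply, AlgEquiv.mul_apply, ih]
          rfl
      rw [h2] at h1
      exact h1
  intro Q g h hQ hh hg0 hh0 heq
  have hm1 : m ≤ n - 1 := by omega
  have hind : AlgebraicIndependent k₁ g := by
    refine indep_of_pow hN1 ?_
    refine indep_of_kummer_each hX.1 B hB1 hB2 N (Fin.castLE hm1) (Fin.castLE_injective hm1) hN Q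
      hQ (fun j => g j ^ N ^ s) (fun j => h j ^ N ^ s) (fun j => pow_ne_zero _ (hg0 j))
      (fun j => pow_ne_zero _ (hh0 j)) (fun j => ?_) (fun j => ?_)
    · obtain ⟨c, hc, b, hb, hcb⟩ := hval (h j) (hh0 j) (hh j)
      refine ⟨c, hc, b, hb, ?_⟩
      rw [← hcb, map_pow, ← pow_mul, mul_comm]
    · have h0 : X' (Fin.castLE hm1 j) = xk hn x (δ + 1) (Fin.castLE hmn j) := rfl
      have h1 : X' (Fin.castLE hm1 j) ^ Q j = (x'' (Fin.castLE hmn j) ^ Q j) ^ N ^ s := by
        rw [h0, ← hxx, ← pow_mul, ← pow_mul, mul_comm]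
      rw [h1, heq j, mul_pow, ← pow_mul, ← pow_mul, mul_comm (N ^ s) N]
  exact hind.restrictScalars (algebraMap k k₁).injective

end RS
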