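import Pool.Agent.H20.KG.Gen
import Pool.Agent.H20.KG.Inr

/-!
The mover over `F_(s,δ)`, for the new basis.
-/

set_option linter.style.haveILetI false

namespace RS

open Polynomial IntermediateField

variable {k K : Type*} [Field k] [Field K] [Algebra k K]

theorem xk_lst {n : ℕ} (hn : 0 < n) (x : Fin n → K) (D : ℕ) : xk hn x D (lst hn) = x (lst hn) := by
  rw [xk, if_pos rfl]

theorem xk_ne {n : ℕ} (hn : 0 < n) (x : Fin n → K) (D : ℕ) {j : Fin n} (hj : j ≠ lst hn) :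
    xk hn x D j = (x j - x (lst hn) ^ (D ^ (n - 1 - (j : ℕ))))⁻¹ := by
  rw [xk, if_neg hj]

theorem x_eq_xk {n : ℕ} (hn : 0 < n) (x : Fin n → K) (D : ℕ) {j : Fin n} (hj : j ≠ lst hn) :
    x j = (xk hn x D j)⁻¹ + xk hn x D (lst hn) ^ (D ^ (n - 1 - (j : ℕ))) := by
  rw [xk_ne hn x D hj, xk_lst, inv_inv]
  ring

/-- the mover over `F_(s,δ)`, `N` odd -/
theorem exists_h_genS [IsAlgClosed k] [IsAlgClosed K] {N : ℕ} (hN : N.Prime) (hN3 : 3 ≤ N)
    (hNk : (N : k) ≠ 0) {n : ℕ} (hn : 0 < n) {x x'' : Fin n → K} (hx : IsTranscendenceBasis k x)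
    (δ s : ℕ) (hxx : ∀ l, x'' l ^ (N ^ s) = xk hn x (δ + 1) l) (i : Fin n) (hi : i ≠ lst hn)
    {b : K} (hb : b ^ N = x'' i) {r : ℕ} {u : Fin r → K}
    (hu : ∀ j, u j ∈ genS (k := k) x δ N s) {c : k} (hc0 : c ≠ 0) (hc1 : c ≠ 1) :
    ∃ h ∈ (PX.Om k x'' i ⊔ k⟮b⟯).fixingSubgroup, (∀ j, h (u j) = u j) ∧
      ∀ z : K, z ^ N = aeval b (rot c (1 + X : k[X]) * (1 + X) ^ (N - 1)) → h z ≠ z := by
  classical
  obtain ⟨p, hp⟩ := ExpChar.exists k
  have hNp : Nat.Coprime N p := coprime_of_ne_zero (k := k) p hNk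
  have had := adjoin_xk' (k := k) hn (x := x) (δ + 1)
  have hx' : IsTranscendenceBasis k (xk hn x (δ + 1)) := basis_of_adjoin_eq' hx had
  have hx'' : IsTranscendenceBasis k x'' := basis_of_pow hx' hxx
  set Ω := PX.Om k x'' i with hΩ
  have hbn : b ∉ Ω := PX.b_notMem_Om hx'' hb
  have hbn' : b ∉ ALG.ac Ω := by
    rw [hΩ, PX.ac_Om]
    exact hbn
  have htop : ALG.ac (Ω ⊔ k⟮b⟯) = ⊤ := PX.Om_top hx'' hb
  have hF : adjoin k (Set.range x) ≤ Ω ⊔ k⟮b⟯ := by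
    rw [← had]
    exact (F_le_of_pow hxx).trans (PX.F_le_Om hb)
  obtain ⟨e, heN, he⟩ := genS_fin hu
  -- a primitive root of unity
  haveI : NeZero ((N ^ (s + 1) : ℕ) : k) := ⟨by rw [Nat.cast_pow]; exact pow_ne_zero _ hNk⟩
  obtain ⟨ζ, hζ⟩ := HasEnoughRootsOfUnity.exists_primitiveRoot k (N ^ (s + 1))
  have hζ0 : ζ ≠ 0 := by
    have h1 : 0 < N ^ (s + 1) := Nat.pow_pos hN.pos
    exact hζ.ne_zero h1.ne'
  obtain ⟨γ, hγΩ, hγb, B, hBΩ, hγB, hBb⟩ := exists_inert_rot' Ω (PX.ac_Om i) hbn htop hζ0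
  have hx'Ω : ∀ l, l ≠ i → xk hn x (δ + 1) l ∈ Ω := by
    intro l hl
    rw [← hxx l]
    exact pow_mem (PX.x_mem_Om hl) _
  have hγF : γ ∈ (adjoin k (Set.range x)).fixingSubgroup := by
    rw [← had, ALG.mem_fs_adjoin]
    rintro _ ⟨l, rfl⟩
    by_cases hl : l = i
    · rw [hl, ← hxx i, ← hb, ← pow_mul, ← pow_succ', map_pow, hγb, mul_pow, ← map_pow,
        hζ.pow_eq_one, map_one, one_mul]
    · exact ALG.mem_fs.1 hγΩ _ (hx'Ω l hl)
  have hrotl : ∀ l : ℕ, (γ ^ l) b = algebraMap k K (ζ ^ l) * b := by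
    intro l
    induction l with
    | zero => simp
    | succ l ih =>
      rw [pow_succ', AlgEquiv.mul_apply, ih, map_mul, AlgEquiv.commutes, hγb, pow_succ, map_mul]
      ring
  have hζM : ζ ^ (e * N ^ s) ≠ 1 := by
    intro h
    have h1 := (hζ.pow_eq_one_iff_dvd _).1 h
    rw [pow_succ', Nat.mul_dvd_mul_iff_right (Nat.pow_pos hN.pos)] at h1
    have h2 := Nat.Coprime.eq_one_of_dvd heN.symm h1
    exact hN.one_lt.ne' h2
  -- `B` is generic
  have hlast : x (lst hn) ∈ Ω := by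
    rw [← xk_lst hn x (δ + 1)]
    exact hx'Ω _ (Ne.symm hi)
  have hgen : Gnr k x δ B := by
    refine gnr_of_near (c := fun j : Fin n => if j = i then
      x (lst hn) ^ ((δ + 1) ^ (n - 1 - (i : ℕ))) else x j) Ω hBΩ (fun j => ?_) (fun j => ?_)
      (fun P hP hd => kron_K_part hn hx.1 i P hP hd)
    · split_ifs with hj
      · exact pow_mem hlast _
      · by_cases hjl : j = lst hn
        · rw [hjl]; exact hlast
        · rw [x_eq_xk hn x (δ + 1) hjl, xk_lst]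
          exact add_mem (inv_mem (hx'Ω j hj)) (pow_mem hlast _)
    · split_ifs with hj
      · rw [hj]
        have h1 : x i - x (lst hn) ^ ((δ + 1) ^ (n - 1 - (i : ℕ))) = (xk hn x (δ + 1) i)⁻¹ := by
          rw [xk_ne hn x (δ + 1) hi, inv_inv]
        have h2 : 1 < B.valuation (xk hn x (δ + 1) i) := by
          rw [← hxx i, ← hb, ← pow_mul, map_pow]
          refine one_lt_pow₀ hBb (Nat.mul_ne_zero hN.ne_zero (Nat.pow_pos hN.pos).ne')
        rw [h1, map_inv₀]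
        exact inv_lt_one_of_one_lt₀ h2
      · rw [sub_self, map_zero]
        exact zero_lt_one
  have hin : InertG x δ γ := ⟨hγF, B, hgen, hγB⟩
  exact exists_h_odd' p hN3 hNp (adjoin k (Set.range x)) Ω hbn' htop hF u (e * N ^ s)
    (fun h hh j => he γ hin h hh j) hγΩ (hrotl _) (pow_ne_zero _ hζ0) hζM hc0 hc1

end RS
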