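import Mathlib

/-!
Polynomials at nearby points: if `x` and `c` are congruent modulo the maximal ideal of a valuation
ring `B` containing the constants and `c`, then so are the values of every polynomial.
-/

set_option linter.style.haveILetI false

namespace RS

variable {k K : Type*} [Field k] [Field K] [Algebra k K] {n : ℕ}

/-- polynomials at nearby points -/
theorem val_aeval_near' {x c : Fin n → K} {B : ValuationSubring K}
    (hk : ∀ a : k, algebraMap k K a ∈ B) (hc : ∀ j, c j ∈ B)
    (hxc : ∀ j, B.valuation (x j - c j) < 1) (P : MvPolynomial (Fin n) k) :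
    B.valuation (MvPolynomial.aeval x P - MvPolynomial.aeval c P) < 1 ∧
      MvPolynomial.aeval c P ∈ B := by
  have hx : ∀ j, B.valuation (x j) ≤ 1 := fun j => by
    have h1 : x j = (x j - c j) + c j := by ring
    rw [h1]
    exact B.valuation.map_add_le (hxc j).le ((B.valuation_le_one_iff _).2 (hc j))
  induction P using MvPolynomial.induction_on with
  | C a =>
    rw [MvPolynomial.aeval_C, MvPolynomial.aeval_C, sub_self, map_zero]
    exact ⟨zero_lt_one, hk a⟩
  | add p q hp hq =>
    rw [map_add, map_add]
    refine ⟨?_, add_mem hp.2 hq.2⟩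
    have h1 : MvPolynomial.aeval x p + MvPolynomial.aeval x q -
        (MvPolynomial.aeval c p + MvPolynomial.aeval c q) =
        (MvPolynomial.aeval x p - MvPolynomial.aeval c p) +
          (MvPolynomial.aeval x q - MvPolynomial.aeval c q) := by ring
    rw [h1]
    exact B.valuation.map_add_lt hp.1 hq.1
  | mul_X p j hp =>
    rw [map_mul, map_mul, MvPolynomial.aeval_X, MvPolynomial.aeval_X]
    refine ⟨?_, mul_mem hp.2 (hc j)⟩
    have h1 : MvPolynomial.aeval x p * x j - MvPolynomial.aeval c p * c j =
        (MvPolynomial.aeval x p - MvPolynomial.aeval c p) * x j +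
          MvPolynomial.aeval c p * (x j - c j) := by ring
    rw [h1]
    refine B.valuation.map_add_lt ?_ ?_
    · rw [map_mul]
      exact mul_lt_one_of_nonneg_of_lt_one_left zero_le hp.1 (hx j)
    · rw [map_mul]
      exact mul_lt_one_of_nonneg_of_lt_one_right ((B.valuation_le_one_iff _).2 hp.2) zero_le
        (hxc j)

end RS
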