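import Pool.Agent.H20.RU.Pri
import Pool.Agent.H20.KG.Near

/-!
The fields `F_(s,δ)`: all `z ∈ K` such that, for some `e` prime to `N`, `g ^ (e * N ^ s)` fixes `z`
for all automorphisms `g` of `K` over `k(x)` in the inertia group of some `δ`-generic valuation ring
of `K`: one in which all nonzero polynomials in `x` of degree at most `δ` are units.
-/

set_option linter.style.haveILetI false

namespace RS

open Polynomial IntermediateField

variable {k K : Type*} [Field k] [Field K] [Algebra k K] {n : ℕ}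

/-- `B` is `δ`-generic: all nonzero polynomials in `x` over `k` of degree at most `δ` are units -/
def Gnr (k : Type*) [Field k] [Algebra k K] (x : Fin n → K) (δ : ℕ) (B : ValuationSubring K) :
    Prop :=
  ∀ P : MvPolynomial (Fin n) k, P ≠ 0 → P.totalDegree ≤ δ →
    B.valuation (MvPolynomial.aeval x P) = 1

/-- `g` is over `k(x)` and lies in the inertia group of some `δ`-generic valuation ring -/
def InertG (x : Fin n → K) (δ : ℕ) (g : Gal(K/k)) : Prop :=
  g ∈ (adjoin k (Set.range x)).fixingSubgroup ∧ ∃ B : ValuationSubring K, Gnr k x δ B ∧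
    ∀ b ∈ B, B.valuation (g b - b) < 1

theorem Gnr.con {x : Fin n → K} {δ : ℕ} {B : ValuationSubring K} (h : Gnr k x δ B) (c : k) :
    algebraMap k K c ∈ B := by
  rw [← B.valuation_le_one_iff]
  by_cases h0 : c = 0
  · rw [h0, map_zero, map_zero]
    exact zero_le_one
  · have h1 := h (MvPolynomial.C c) (by rwa [Ne, MvPolynomial.C_eq_zero]) (by
      rw [MvPolynomial.totalDegree_C]; exact Nat.zero_le _)
    rw [MvPolynomial.aeval_C] at h1
    exact h1.le

theorem InertG.inert {x : Fin n → K} {δ : ℕ} {g : Gal(K/k)} (h : InertG x δ g) :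
    Inert (adjoin k (Set.range x)) g := by
  obtain ⟨hF, B, hB, hg⟩ := h
  exact ⟨hF, B, hB.con, hg⟩

theorem inertG_conj {x : Fin n → K} {δ : ℕ} {g h : Gal(K/k)} (hg : InertG x δ g)
    (hh : h ∈ (adjoin k (Set.range x)).fixingSubgroup) : InertG x δ (h⁻¹ * g * h) := by
  obtain ⟨hgF, B, hB, hgB⟩ := hg
  have hlt : ∀ y : K, (B.comap (h : K →+* K)).valuation y < 1 ↔ B.valuation (h y) < 1 := by
    intro y
    rw [CopVal.lt_one_iff, CopVal.lt_one_iff, ValuationSubring.mem_comap]
    constructor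
    · rintro (h1 | h1)
      · left; rw [h1, map_zero]
      · right
        rw [← map_inv₀]
        exact h1
    · rintro (h1 | h1)
      · left; exact h.injective (by rw [h1, map_zero])
      · right
        rw [← map_inv₀] at h1
        exact h1
  refine ⟨mul_mem (mul_mem (inv_mem hh) hgF) hh, B.comap (h : K →+* K), fun P hP hd => ?_,
    fun b hb => ?_⟩
  · have h1 := hB P hP hd
    have hfix : h (MvPolynomial.aeval x P) = MvPolynomial.aeval x P := by
      have h2 : h (MvPolynomial.aeval x P) = MvPolynomial.aeval (fun j => h (x j)) P := by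
        have h3 := MvPolynomial.comp_aeval_apply (R := k) (f := x) (φ := (h : K →ₐ[k] K)) P
        exact h3
      rw [h2]
      congr 1
      congr 1
      funext j
      exact ALG.mem_fs.1 hh _ (subset_adjoin k _ ⟨j, rfl⟩)
    apply le_antisymm
    · rw [ValuationSubring.valuation_le_one_iff, ValuationSubring.mem_comap]
      change h (MvPolynomial.aeval x P) ∈ B
      rw [hfix, ← B.valuation_le_one_iff, h1]
    · by_contra hcon
      rw [not_le, hlt, hfix, h1] at hcon
      exact lt_irrefl _ hcon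
  · rw [ValuationSubring.mem_comap] at hb
    have h1 := hgB (h b) hb
    rw [hlt]
    have h2 : h ((h⁻¹ * g * h) b - b) = g (h b) - h b := by
      rw [map_sub]
      congr 1
      exact PX.apply_inv h _
    rw [h2]
    exact h1

/-- all `z ∈ K` such that, for some `e` prime to `N`, `g ^ (e * N ^ s)` fixes `z` for all `δ`-inert
`g` -/
def genS (x : Fin n → K) (δ N s : ℕ) : IntermediateField k K where
  carrier := {z | ∃ e, Nat.Coprime e N ∧ ∀ g : Gal(K/k), InertG x δ g → (g ^ (e * N ^ s)) z = z}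
  mul_mem' := by
    rintro a b ⟨e, he, h⟩ ⟨e', he', h'⟩
    refine ⟨e * e', Nat.Coprime.mul_left he he', fun g hg => ?_⟩
    rw [map_mul]
    have h1 := fix_mul_left (h g hg) e'
    have h2 := fix_mul_right (h' g hg) e
    rw [mul_right_comm] at h1
    rw [← mul_assoc] at h2
    rw [h1, h2]
  one_mem' := ⟨1, Nat.coprime_one_left N, fun g _ => map_one _⟩
  add_mem' := by
    rintro a b ⟨e, he, h⟩ ⟨e', he', h'⟩
    refine ⟨e * e', Nat.Coprime.mul_left he he', fun g hg => ?_⟩
    rw [map_add]
    have h1 := fix_mul_left (h g hg) e'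
    have h2 := fix_mul_right (h' g hg) e
    rw [mul_right_comm] at h1
    rw [← mul_assoc] at h2
    rw [h1, h2]
  zero_mem' := ⟨1, Nat.coprime_one_left N, fun g _ => map_zero _⟩
  algebraMap_mem' := fun c => ⟨1, Nat.coprime_one_left N, fun g _ => AlgEquiv.commutes _ c⟩
  inv_mem' := by
    rintro a ⟨e, he, h⟩
    exact ⟨e, he, fun g hg => by rw [map_inv₀, h g hg]⟩

theorem mem_genS {x : Fin n → K} {δ N s : ℕ} {z : K} : z ∈ genS (k := k) x δ N s ↔
    ∃ e, Nat.Coprime e N ∧ ∀ g : Gal(K/k), InertG x δ g → (g ^ (e * N ^ s)) z = z := Iff.rfl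

theorem ramS_le_genS (x : Fin n → K) (δ N s : ℕ) :
    ramS N s (adjoin k (Set.range x)) ≤ genS x δ N s := by
  intro z hz
  obtain ⟨e, he, h⟩ := mem_ramS.1 hz
  exact mem_genS.2 ⟨e, he, fun g hg => h g hg.inert⟩

theorem genS_conj {M : ℕ} {x : Fin n → K} {δ : ℕ} {z : K}
    (hz : ∀ g : Gal(K/k), InertG x δ g → (g ^ M) z = z) {h : Gal(K/k)}
    (hh : h ∈ (adjoin k (Set.range x)).fixingSubgroup) {g : Gal(K/k)} (hg : InertG x δ g) :
    (g ^ M) (h z) = h z := by
  have h1 := hz (h⁻¹ * g * h) (inertG_conj hg hh)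
  have h2 : (h⁻¹ * g * h) ^ M = h⁻¹ * g ^ M * h := by
    have h3 := conj_pow (i := M) (a := h⁻¹) (b := g)
    rwa [inv_inv] at h3
  rw [h2] at h1
  have h4 : h⁻¹ ((g ^ M) (h z)) = z := h1
  have h5 := congrArg h h4
  rwa [PX.apply_inv] at h5

theorem genS_stable {x : Fin n → K} {δ N s : ℕ} {h : Gal(K/k)}
    (hh : h ∈ (adjoin k (Set.range x)).fixingSubgroup) {z : K} (hz : z ∈ genS (k := k) x δ N s) :
    h z ∈ genS (k := k) x δ N s := by
  obtain ⟨e, he, hez⟩ := mem_genS.1 hz
  exact mem_genS.2 ⟨e, he, fun g hg => genS_conj hez hh hg⟩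

/-- one exponent for finitely many elements and all their conjugates -/
theorem genS_fin {x : Fin n → K} {δ N s r : ℕ} {u : Fin r → K}
    (hu : ∀ i, u i ∈ genS (k := k) x δ N s) :
    ∃ e, Nat.Coprime e N ∧ ∀ g : Gal(K/k), InertG x δ g →
      ∀ h ∈ (adjoin k (Set.range x)).fixingSubgroup, ∀ i,
      (g ^ (e * N ^ s)) (h (u i)) = h (u i) := by
  classical
  choose e he hef using fun i => mem_genS.1 (hu i)
  refine ⟨∏ i, e i, Nat.Coprime.prod_left (fun i _ => he i), fun g hg h hh i => ?_⟩
  obtain ⟨c, hc⟩ : e i ∣ ∏ i, e i := Finset.dvd_prod_of_mem e (Finset.mem_univ i)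
  rw [hc, mul_right_comm]
  exact fix_mul_left (genS_conj (hef i) hh hg) c

end RS
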