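import Pool.Agent.H20.KG.Pri

/-!
`K` is the union over `δ` of the `F_(0,δ)`; algebraic functions with leading coefficient and
discriminant of degree at most `δ` are in `F_(s,δ)`.
-/

set_option linter.style.haveILetI false

namespace RS

open Polynomial IntermediateField

variable {k K : Type*} [Field k] [Field K] [Algebra k K] {n : ℕ}

theorem Gnr.mono {x : Fin n → K} {δ δ' : ℕ} (h : δ ≤ δ') {B : ValuationSubring K}
    (hB : Gnr k x δ' B) : Gnr k x δ B := fun P hP hd => hB P hP (hd.trans h)

/-- an element with a nontrivial polynomial relation all of whose coefficients are zero or units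
is in `B` -/
theorem mem_of_rel {B : ValuationSubring K} {y : K} (q : K[X]) (hq : q ≠ 0)
    (h1 : ∀ i, q.coeff i ∈ B) (h2 : B.valuation q.leadingCoeff = 1) (h0 : eval y q = 0) :
    y ∈ B := by
  rw [← B.valuation_le_one_iff]
  by_contra hcon
  rw [not_le] at hcon
  have h3 : q.leadingCoeff * y ^ q.natDegree = -∑ i ∈ Finset.range q.natDegree,
      q.coeff i * y ^ i := by
    rw [eval_eq_sum_range, Finset.sum_range_succ] at h0
    rw [eq_neg_iff_add_eq_zero, add_comm]
    exact h0
  have h4 : B.valuation (q.leadingCoeff * y ^ q.natDegree) = B.valuation y ^ q.natDegree := by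
    rw [map_mul, h2, one_mul, map_pow]
  have h5 : B.valuation y ≠ 0 := fun h => by rw [h] at hcon; exact not_lt_zero' hcon
  have h6 : B.valuation (∑ i ∈ Finset.range q.natDegree, q.coeff i * y ^ i) <
      B.valuation y ^ q.natDegree := by
    refine Valuation.map_sum_lt _ (pow_ne_zero _ h5) (fun i hi => ?_)
    rw [Finset.mem_range] at hi
    rw [map_mul, map_pow]
    calc B.valuation (q.coeff i) * B.valuation y ^ i ≤ 1 * B.valuation y ^ i :=
          mul_le_mul_left ((B.valuation_le_one_iff _).2 (h1 i)) _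
      _ = B.valuation y ^ i := one_mul _
      _ < B.valuation y ^ q.natDegree := pow_lt_pow_right₀ hcon hi
  rw [h3, Valuation.map_neg] at h4
  rw [h4] at h6
  exact lt_irrefl _ h6

/-- every element is in all `δ`-generic valuation rings, for some `δ` -/
theorem exists_mem_gnr {x : Fin n → K} (hx : IsTranscendenceBasis k x) (y : K) :
    ∃ δ, ∀ B : ValuationSubring K, Gnr k x δ B → y ∈ B := by
  classical
  haveI := hx.isAlgebraic
  obtain ⟨p, hp0, hp⟩ := Algebra.IsAlgebraic.isAlgebraic (R := Algebra.adjoin k (Set.range x)) y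
  have hc : ∀ i, ∃ P : MvPolynomial (Fin n) k, MvPolynomial.aeval x P = (p.coeff i : K) := by
    have h1 : ∀ c ∈ Algebra.adjoin k (Set.range x), ∃ P : MvPolynomial (Fin n) k,
        MvPolynomial.aeval x P = c := by
      intro c hc
      rw [Algebra.adjoin_range_eq_range_aeval] at hc
      exact hc
    exact fun i => h1 _ (p.coeff i).2
  choose P hP using hc
  refine ⟨p.support.sup (fun i => (P i).totalDegree), fun B hB => ?_⟩
  have hv : ∀ i ∈ p.support, B.valuation (p.coeff i : K) = 1 := by
    intro i hi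
    rw [← hP i]
    refine hB _ ?_ (Finset.le_sup (f := fun i => (P i).totalDegree) hi)
    intro h0
    have h1 := hP i
    rw [h0, map_zero] at h1
    rw [mem_support_iff] at hi
    exact hi (Subtype.ext h1.symm)
  let φ : Algebra.adjoin k (Set.range x) →+* K :=
    algebraMap (Algebra.adjoin k (Set.range x)) K
  have hφ : Function.Injective φ := Subtype.val_injective
  refine mem_of_rel (p.map φ) ((Polynomial.map_ne_zero_iff hφ).2 hp0) (fun i => ?_) ?_ ?_
  · rw [coeff_map]
    by_cases hi : i ∈ p.support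
    · rw [← B.valuation_le_one_iff]
      exact (hv i hi).le
    · rw [notMem_support_iff] at hi
      rw [hi, map_zero]
      exact B.zero_mem
  · rw [leadingCoeff_map_of_injective hφ]
    exact hv _ (natDegree_mem_support_of_nonzero hp0)
  · rw [eval_map]
    exact hp

/-- `K` is the union over `δ` of the `F_(0,δ)` -/
theorem exists_mem_genS {x : Fin n → K} (hx : IsTranscendenceBasis k x) (N : ℕ) (z : K) :
    ∃ δ, z ∈ genS (k := k) x δ N 0 := by
  classical
  choose d hd using exists_mem_gnr (k := k) hx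
  haveI : Algebra.IsAlgebraic (adjoin k (Set.range x)) K := hx.isAlgebraic_field
  let S : Finset K := ((minpoly (adjoin k (Set.range x)) z).map
    (algebraMap (adjoin k (Set.range x)) K)).roots.toFinset
  have hint : IsIntegral (adjoin k (Set.range x)) z := Algebra.IsIntegral.isIntegral z
  have hne : (minpoly (adjoin k (Set.range x)) z).map
      (algebraMap (adjoin k (Set.range x)) K) ≠ 0 :=
    (Polynomial.map_ne_zero_iff (algebraMap (adjoin k (Set.range x)) K).injective).2
      (minpoly.ne_zero hint)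
  let δ := (S.sup (fun s => d ((s - z)⁻¹))) ⊔ d z
  refine ⟨δ, mem_genS.2 ⟨1, Nat.coprime_one_left N, fun g hg => ?_⟩⟩
  rw [pow_zero, mul_one, pow_one]
  obtain ⟨hgF, B, hB, hgB⟩ := hg
  have hz : z ∈ B := hd z B (hB.mono le_sup_right)
  have hS : g z ∈ S := by
    rw [Multiset.mem_toFinset, mem_roots hne, IsRoot.def, eval_map]
    have h1 : eval₂ (algebraMap (adjoin k (Set.range x)) K) z
      (minpoly (adjoin k (Set.range x)) z) = 0 := minpoly.aeval _ _
    have h2 := congrArg g h1
    rw [map_zero, eval₂_eq_sum_range, map_sum] at h2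
    rw [eval₂_eq_sum_range]
    rw [← h2]
    refine Finset.sum_congr rfl (fun i _ => ?_)
    rw [map_mul, map_pow]
    congr 1
    exact (ALG.mem_fs.1 hgF _ (Subtype.mem _)).symm
  have hi : (g z - z)⁻¹ ∈ B :=
    hd _ B (hB.mono ((Finset.le_sup (f := fun s => d ((s - z)⁻¹)) hS).trans le_sup_left))
  by_contra hne'
  have h5 := hgB z hz
  rw [CopVal.lt_one_iff] at h5
  rcases h5 with h5 | h5
  · exact hne' (sub_eq_zero.1 h5)
  · exact h5 hi

/-- if `δ ≥ 1`, all polynomials in `x` are in the `δ`-generic valuation rings -/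
theorem Gnr.aeval_mem {x : Fin n → K} {δ : ℕ} (hδ : 1 ≤ δ) {B : ValuationSubring K}
    (hB : Gnr k x δ B) (P : MvPolynomial (Fin n) k) : MvPolynomial.aeval x P ∈ B := by
  induction P using MvPolynomial.induction_on with
  | C c => rw [MvPolynomial.aeval_C]; exact hB.con c
  | add P Q h1 h2 => rw [map_add]; exact add_mem h1 h2
  | mul_X P j h1 =>
    rw [map_mul]
    refine mul_mem h1 ?_
    rw [← B.valuation_le_one_iff]
    exact (hB _ (MvPolynomial.X_ne_zero j) (by rw [MvPolynomial.totalDegree_X]; exact hδ)).le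

/-- algebraic functions with leading coefficient and discriminant of degree at most `δ` are in
`F_(s,δ)` -/
theorem mem_genS_of_disc {x : Fin n → K} {δ : ℕ} (hδ : 1 ≤ δ) (N s : ℕ)
    (P U V : (MvPolynomial (Fin n) k)[X]) (D : MvPolynomial (Fin n) k)
    (hPd : P.leadingCoeff.totalDegree ≤ δ) (hD : D ≠ 0) (hDd : D.totalDegree ≤ δ)
    (hUV : U * P + V * derivative P = C D) {z : K}
    (hz : eval₂ (MvPolynomial.aeval x : MvPolynomial (Fin n) k →ₐ[k] K).toRingHom z P = 0) :
    z ∈ genS (k := k) x δ N s := by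
  have hP : P ≠ 0 := by
    rintro rfl
    rw [derivative_zero, mul_zero, mul_zero, add_zero, eq_comm, C_eq_zero] at hUV
    exact hD hUV
  refine mem_genS.2 ⟨1, Nat.coprime_one_left N, fun g hg => ?_⟩
  refine fix_mul_left ?_ (N ^ s)
  rw [pow_one]
  obtain ⟨hgF, B, hB, hgB⟩ := hg
  let φ : MvPolynomial (Fin n) k →+* K :=
    (MvPolynomial.aeval x : MvPolynomial (Fin n) k →ₐ[k] K).toRingHom
  have hφB : ∀ R, φ R ∈ B := fun R => hB.aeval_mem hδ R
  have hlc : B.valuation (φ P.leadingCoeff) = 1 := hB _ (leadingCoeff_ne_zero.2 hP) hPd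
  have hlc0 : φ P.leadingCoeff ≠ 0 := by
    intro h
    rw [h, map_zero] at hlc
    exact zero_ne_one hlc
  have hmem : ∀ (Q : (MvPolynomial (Fin n) k)[X]) (y : K), y ∈ B → eval₂ φ y Q ∈ B := by
    intro Q y hy
    rw [eval₂_eq_sum_range]
    exact sum_mem (fun i _ => mul_mem (hφB _) (pow_mem hy i))
  have hzB : z ∈ B := by
    refine mem_of_rel (P.map φ) ?_ (fun i => by rw [coeff_map]; exact hφB _) ?_ ?_
    · intro h
      apply hlc0
      have h1 := congrArg (fun q : K[X] => q.coeff P.natDegree) h
      simpa using h1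
    · rw [leadingCoeff_map_of_leadingCoeff_ne_zero φ hlc0]
      exact hlc
    · rw [eval_map]
      exact hz
  by_contra hne
  have hg0 : g z - z ≠ 0 := sub_ne_zero.2 hne
  have hgz : g z ∈ B := by
    have h1 := add_mem ((B.valuation_le_one_iff _).1 (hgB z hzB).le) hzB
    rwa [sub_add_cancel] at h1
  have hfix : ∀ R, g (φ R) = φ R := by
    intro R
    have h3 := MvPolynomial.comp_aeval_apply (R := k) (f := x) (φ := (g : K →ₐ[k] K)) R
    have h4 : g (φ R) = MvPolynomial.aeval (fun j => g (x j)) R := h3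
    rw [h4]
    change _ = MvPolynomial.aeval x R
    congr 1
    congr 1
    funext j
    exact ALG.mem_fs.1 hgF _ (subset_adjoin k _ ⟨j, rfl⟩)
  have hgP : eval₂ φ (g z) P = 0 := by
    have h1 : eval₂ φ z P = 0 := hz
    have h2 := congrArg g h1
    rw [map_zero, eval₂_eq_sum_range, map_sum] at h2
    rw [eval₂_eq_sum_range, ← h2]
    refine Finset.sum_congr rfl (fun i _ => ?_)
    rw [map_mul, map_pow, hfix]
  -- the derivative at `z` is divisible by `g z - z`
  let ψ : MvPolynomial (Fin n) k →+* B := φ.codRestrict B.toSubring hφB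
  have hψ : (algebraMap B K).comp ψ = φ := rfl
  let z' : B := ⟨z, hzB⟩
  let y' : B := ⟨g z - z, sub_mem hgz hzB⟩
  have hev : ∀ (Q : (MvPolynomial (Fin n) k)[X]) (b : B),
      algebraMap B K ((Q.map ψ).eval b) = eval₂ φ (algebraMap B K b) Q := by
    intro Q b
    rw [eval_map, hom_eval₂, hψ]
  have h1 : (P.map ψ).eval z' = 0 := by
    apply (IsFractionRing.injective B K)
    rw [hev, map_zero]
    exact hz
  have h2 : (P.map ψ).eval (z' + y') = 0 := by
    apply (IsFractionRing.injective B K)
    rw [hev, map_zero, ← hgP]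
    congr 1
    change z + (g z - z) = g z
    ring
  obtain ⟨c, hc⟩ := binomExpansion (P.map ψ) z' y'
  rw [h1, h2, zero_add] at hc
  have hy0 : y' ≠ 0 := fun h => hg0 (congrArg Subtype.val h)
  have h3 : (derivative (P.map ψ)).eval z' + c * y' = 0 := by
    have h4 : ((derivative (P.map ψ)).eval z' + c * y') * y' = 0 := by
      rw [add_mul, mul_assoc, ← pow_two]
      exact hc.symm
    exact (mul_eq_zero.1 h4).resolve_right hy0
  have h4 : eval₂ φ z (derivative P) = -((c : K) * (g z - z)) := by
    have h5 := congrArg (algebraMap B K) h3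
    rw [map_add, derivative_map, hev, map_zero] at h5
    rw [eq_neg_iff_add_eq_zero]
    exact h5
  have h5 : B.valuation (φ D) = 1 := hB D hD hDd
  have h6 : eval₂ φ z V * eval₂ φ z (derivative P) = φ D := by
    have h7 := congrArg (eval₂ φ z) hUV
    rw [eval₂_add, eval₂_mul, eval₂_mul, eval₂_C] at h7
    have h8 : eval₂ φ z P = 0 := hz
    rw [h8, mul_zero, zero_add] at h7
    exact h7
  have h7 : B.valuation (φ D) < 1 := by
    rw [← h6, h4, map_mul, Valuation.map_neg, map_mul]
    have h8 := (B.valuation_le_one_iff _).2 (hmem V z hzB)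
    have h9 := B.valuation_le_one c
    calc B.valuation (eval₂ φ z V) * (B.valuation (c : K) * B.valuation (g z - z))
        ≤ 1 * (1 * B.valuation (g z - z)) := mul_le_mul' h8 (mul_le_mul' h9 le_rfl)
      _ = B.valuation (g z - z) := by rw [one_mul, one_mul]
      _ < 1 := hgB z hzB
  rw [h5] at h7
  exact lt_irrefl _ h7

end RS
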